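import Pool.Agent.MP_cce4c9_lc.H7.Spec
import Pool.Agent.MP_cce4c9_lc.H7.BaseA

/-! A trivial commutator form forces degree zero; perfectness of the pairing. -/

set_option autoImplicit false

open WithZero Finsupp Module Polynomial

namespace Pool.Agent.MP_cce4c9_lc.H15

open Pool.Agent.MP_cce4c9_lc.H87 Pool.Agent.MP_cce4c9_lc.H7

/-- Characters with values in an algebraically closed field extend. -/
theorem ext_char {k M N : Type} [Field k] [IsAlgClosed k] [CommGroup M] [CommGroup N]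
    (f : M →* N) (hf : Function.Injective f) (g : M →* kˣ) :
    ∃ χ : N →* kˣ, ∀ m, χ (f m) = g m := by
  let : DivisibleBy (Additive kˣ) ℕ := divisibleByOfSMulRightSurj _ _ fun {n} hn a => by
    obtain ⟨z, hz⟩ := IsAlgClosed.exists_pow_nat_eq ((Additive.toMul a : kˣ) : k)
      (Nat.pos_of_ne_zero hn)
    have h0 : z ≠ 0 := fun e => by
      rw [e, zero_pow hn] at hz
      exact (Additive.toMul a).ne_zero hz.symm
    refine ⟨Additive.ofMul (Units.mk0 z h0), ?_⟩
    show n • Additive.ofMul (Units.mk0 z h0) = a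
    rw [← ofMul_pow]
    exact congrArg Additive.ofMul (Units.ext hz : Units.mk0 z h0 ^ n = Additive.toMul a)
  let : DivisibleBy (Additive kˣ) ℤ := AddGroup.divisibleByIntOfDivisibleByNat _
  obtain ⟨χ, hχ⟩ := (Module.Baer.of_divisible (Additive kˣ)).extension_property_addMonoidHom
    (MonoidHom.toAdditive f) hf (MonoidHom.toAdditive g)
  exact ⟨MonoidHom.toAdditive.symm χ, fun m => DFunLike.congr_fun hχ (Additive.ofMul m)⟩

section TH

variable {k K L : Type} [Field k] [Field K] [Algebra k K] [Field L] [Algebra k L] [Algebra K L]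
  [IsScalarTower k K L]

theorem fix_const (γ : L ≃ₐ[K] L) (c : k) : γ (algebraMap k L c) = algebraMap k L c := by
  rw [IsScalarTower.algebraMap_apply k K L, γ.commutes]

/-- Roots of unity are constants. -/
theorem root_const {l : ℕ} [NeZero l] {ζ : k} (hζ : IsPrimitiveRoot ζ l) {z : L} (hz : z ^ l = 1) :
    ∃ c : k, c ^ l = 1 ∧ algebraMap k L c = z := by
  obtain ⟨i, -, hi⟩ := (hζ.map_of_injective (algebraMap k L).injective).eq_pow_of_pow_eq_one hz
  exact ⟨ζ ^ i, by rw [← pow_mul, mul_comm, pow_mul, hζ.pow_eq_one, one_pow], by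
    rw [map_pow, hi]⟩

/-- Pairs of an automorphism and an `l`-th root of the quotient `γ H / H`. -/
@[ext] structure EE (K : Type) [Field K] [Algebra K L] (H : L) (l : ℕ) where
  /-- the automorphism -/
  g : L ≃ₐ[K] L
  /-- the root -/
  u : Lˣ
  eq : g H = H * (u : L) ^ l

variable {H : L} {l : ℕ}

instance : Group (EE K H l) where
  mul a b := ⟨a.g * b.g, a.u * a.g • b.u, by
    rw [AlgEquiv.mul_apply, b.eq, map_mul, a.eq, map_pow, Units.val_mul, mul_pow, mul_assoc]
    rfl⟩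
  one := ⟨1, 1, by simp⟩
  inv a := ⟨a.g⁻¹, a.g⁻¹ • a.u⁻¹, by
    apply a.g.injective
    have h1 : a.g (a.g⁻¹ H) = H := a.g.apply_symm_apply H
    have h2 : a.g ((a.g⁻¹ • a.u⁻¹ : Lˣ) : L) = ((a.u⁻¹ : Lˣ) : L) := a.g.apply_symm_apply _
    rw [h1, map_mul, map_pow, h2, a.eq, mul_assoc, ← mul_pow, Units.mul_inv, one_pow, mul_one]⟩
  mul_assoc a b c := by
    refine EE.ext (mul_assoc _ _ _) ?_
    show a.u * a.g • b.u * (a.g * b.g) • c.u = a.u * a.g • (b.u * b.g • c.u)
    rw [smul_mul', mul_smul, mul_assoc]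
  one_mul a := by
    refine EE.ext (one_mul _) ?_
    show 1 * (1 : L ≃ₐ[K] L) • a.u = a.u
    rw [one_mul, one_smul]
  mul_one a := by
    refine EE.ext (mul_one _) ?_
    show a.u * a.g • (1 : Lˣ) = a.u
    rw [smul_one, mul_one]
  inv_mul_cancel a := by
    refine EE.ext (inv_mul_cancel _) ?_
    show a.g⁻¹ • a.u⁻¹ * a.g⁻¹ • a.u = 1
    rw [← smul_mul', inv_mul_cancel, smul_one]

theorem EE.mul_g (a b : EE K H l) : (a * b).g = a.g * b.g := rfl

theorem EE.mul_u (a b : EE K H l) : ((a * b).u : L) = a.u * a.g b.u := rfl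

/-- The roots of unity inside the group of pairs. -/
def emb (k K : Type) [Field k] [Field K] [Algebra k L] [Algebra K L] (H : L) (l : ℕ) :
    (powMonoidHom l : kˣ →* kˣ).ker →* EE K H l where
  toFun z := ⟨1, Units.map (algebraMap k L).toMonoidHom z.1, by
    have h : (z.1 : k) ^ l = 1 := by
      rw [← Units.val_pow_eq_pow_val]; exact congrArg Units.val (MonoidHom.mem_ker.1 z.2)
    show H = H * algebraMap k L (z.1 : k) ^ l
    rw [← map_pow, h, map_one, mul_one]⟩
  map_one' := EE.ext rfl (map_one _)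
  map_mul' a b := by
    refine EE.ext (mul_one _).symm ?_
    show Units.map _ (a.1 * b.1) = _ * (1 : L ≃ₐ[K] L) • _
    rw [one_smul, map_mul]

omit [Algebra k K] [IsScalarTower k K L] in
theorem emb_inj : Function.Injective (emb k K H l) := fun a b h => by
  have h1 : algebraMap k L (a.1 : k) = algebraMap k L (b.1 : k) :=
    congrArg (fun e : EE K H l => (e.u : L)) h
  exact Subtype.ext (Units.ext ((algebraMap k L).injective h1))

omit [Algebra k K] [IsScalarTower k K L] in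
/-- Two roots for the same automorphism differ by a root of unity. -/
theorem same_g [NeZero l] {ζ : k} (hζ : IsPrimitiveRoot ζ l) (hH : H ≠ 0) (a b : EE K H l)
    (h : a.g = b.g) : ∃ z, a = emb k K H l z * b := by
  have h1 : ((a.u : L) / b.u) ^ l = 1 := by
    have := a.eq
    rw [h, b.eq] at this
    rw [div_pow, ← mul_left_cancel₀ hH this, div_self (pow_ne_zero _ b.u.ne_zero)]
  obtain ⟨c, hc, hcz⟩ := root_const hζ h1
  have h0 : c ≠ 0 := fun e => by
    rw [e, zero_pow (NeZero.ne l)] at hc; exact zero_ne_one hc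
  refine ⟨⟨Units.mk0 c h0, MonoidHom.mem_ker.2 (Units.ext hc)⟩, EE.ext ?_ (Units.ext ?_)⟩
  · rw [EE.mul_g, h]; exact (one_mul _).symm
  · show (a.u : L) = algebraMap k L c * b.u
    rw [hcz, div_mul_cancel₀ _ b.u.ne_zero]

/-- After division by an `l`-th power the function is an eigenvector. -/
theorem eigen [IsAlgClosed k] [FiniteDimensional K L] [NeZero l] {ζ : k}
    (hζ : IsPrimitiveRoot ζ l) (hH : H ≠ 0) (hc : ∀ γ δ : L ≃ₐ[K] L, γ * δ = δ * γ)
    (w : (L ≃ₐ[K] L) → L) (hw : ∀ γ, γ H = H * w γ ^ l)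
    (hww : ∀ γ δ, w γ * γ (w δ) = w δ * δ (w γ)) :
    ∃ s : L, s ≠ 0 ∧ ∀ γ : L ≃ₐ[K] L, ∃ c : k, γ (H / s ^ l) = algebraMap k L c * (H / s ^ l) := by
  have hw0 : ∀ γ, w γ ≠ 0 := fun γ e => by
    have := hw γ
    rw [e, zero_pow (NeZero.ne l), mul_zero, map_eq_zero] at this
    exact hH this
  let σ : (L ≃ₐ[K] L) → EE K H l := fun γ => ⟨γ, Units.mk0 _ (hw0 γ), hw γ⟩
  have hcomm : ∀ a b : EE K H l, a * b = b * a := fun a b => by
    obtain ⟨z, hz⟩ := same_g hζ hH a (σ a.g) rfl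
    obtain ⟨y, hy⟩ := same_g hζ hH b (σ b.g) rfl
    have ha : (a.u : L) = algebraMap k L (z.1 : k) * w a.g :=
      congrArg (fun e : EE K H l => (e.u : L)) hz
    have hb : (b.u : L) = algebraMap k L (y.1 : k) * w b.g :=
      congrArg (fun e : EE K H l => (e.u : L)) hy
    refine EE.ext (hc _ _) (Units.ext ?_)
    rw [EE.mul_u, EE.mul_u, ha, hb, map_mul, map_mul, fix_const, fix_const]
    linear_combination (algebraMap k L (z.1 : k) * algebraMap k L (y.1 : k)) * hww a.g b.g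
  let : CommGroup (EE K H l) := { (inferInstance : Group (EE K H l)) with mul_comm := hcomm }
  obtain ⟨χ, hχ⟩ := ext_char (emb k K H l) emb_inj (Subgroup.subtype _)
  let ι : kˣ →* Lˣ := Units.map (algebraMap k L).toMonoidHom
  let W : EE K H l → Lˣ := fun a => a.u / ι (χ a)
  have hι : ∀ (γ : L ≃ₐ[K] L) (c : kˣ), γ • ι c = ι c := fun γ c => Units.ext (fix_const γ _)
  have hW : ∀ a b, W (a * b) = a.g • W b * W a := fun a b => by
    show a.u * a.g • b.u / ι (χ (a * b)) = a.g • (b.u / ι (χ b)) * (a.u / ι (χ a))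
    rw [map_mul, map_mul, smul_div', hι, div_mul_div_comm, mul_comm a.u, mul_comm (ι (χ a))]
  have hW1 : ∀ a b, a.g = b.g → W a = W b := fun a b h => by
    obtain ⟨z, rfl⟩ := same_g hζ hH a b h
    rw [hW]
    have h1 : W (emb k K H l z) = 1 := by
      show _ / ι (χ (emb k K H l z)) = 1
      rw [hχ]; exact div_self' _
    rw [h1, mul_one]; exact one_smul _ _
  obtain ⟨s, hs⟩ := groupCohomology.isMulCoboundary₁_of_isMulCocycle₁_of_aut_to_units
    (fun γ => W (σ γ)) fun γ δ => (hW1 (σ (γ * δ)) (σ γ * σ δ) rfl).trans (hW _ _)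
  refine ⟨s, s.ne_zero, fun γ => ⟨(χ (σ γ) : k) ^ l, ?_⟩⟩
  have h1 : γ (s : L) / s = w γ / algebraMap k L (χ (σ γ) : k) := by
    have := congrArg Units.val (hs γ)
    simpa [W, σ, ι] using this
  have h2 : algebraMap k L (χ (σ γ) : k) ≠ 0 := by simp
  have h3 : γ (s : L) ≠ 0 := by simp
  have h4 : w γ = algebraMap k L (χ (σ γ) : k) * (γ (s : L) / s) := by
    rw [h1, mul_div_cancel₀ _ h2]
  rw [map_div₀, map_pow, hw, h4, map_pow, mul_pow, div_pow]
  field_simp

end TH

theorem th (hD : StmtDEG) : StmtTH := by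
  intro k K L _ _ _ _ _ _ _ _ _ _ l hl ζ dn hK hζ hov hdn hc hp H w B ⟨hH, hw, hww, hB⟩
  have : NeZero l := ⟨hl.out.ne_zero⟩
  obtain ⟨s, hs, he⟩ := eigen hζ hH hc w hw fun γ δ => by simpa using hww γ δ
  have h0 : H / s ^ l ≠ 0 := div_ne_zero hH (pow_ne_zero _ hs)
  obtain ⟨a, ha⟩ : (H / s ^ l) ^ l ∈ Set.range (algebraMap K L) := by
    rw [IsGalois.mem_range_algebraMap_iff_fixed]
    intro γ
    obtain ⟨c, hc⟩ := he γ
    have h1 : ∀ n : ℕ, (γ ^ n) (H / s ^ l) = algebraMap k L c ^ n * (H / s ^ l) := fun n => by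
      induction n with
      | zero => simp
      | succ n ih =>
        rw [pow_succ', AlgEquiv.mul_apply, ih, map_mul, map_pow, fix_const, hc, pow_succ, mul_assoc]
    have h2 := h1 l
    rw [hp, AlgEquiv.one_apply] at h2
    have h3 : algebraMap k L c ^ l = 1 := (mul_eq_right₀ h0).1 h2.symm
    rw [map_pow, hc, mul_pow, h3, one_mul]
  have h1 : ∀ x, ((l : ℤ) * l) ∣ (dv k a - (l : ℤ) • B) x := fun x => by
    obtain ⟨y, rfl⟩ := hdn x
    have h2 : (dn y).ord a = y.ord ((H / s ^ l) ^ l) := by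
      rw [← ha, Place.ord, Place.ord, (hov y).2, pow_one]
    have h3 : (l : ℤ) ∣ y.ord H - B (dn y) :=
      (ZMod.intCast_eq_intCast_iff_dvd_sub _ _ l).1 (hB y).symm
    rw [Finsupp.sub_apply, dv_apply (fins hK a), h2, y.ord_pow, div_eq_mul_inv,
      y.ord_mul (y.val_ne hH) (y.val_ne (inv_ne_zero (pow_ne_zero _ hs))), y.ord_inv, y.ord_pow,
      Finsupp.smul_apply, smul_eq_mul, ← mul_sub]
    refine mul_dvd_mul_left _ ?_
    rw [add_sub_right_comm]
    exact dvd_add h3 (dvd_neg.2 (dvd_mul_right _ _))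
  have h2 : ((l : ℤ) * l) ∣ (dv k a - (l : ℤ) • B).degree := by
    rw [degree_apply]; exact Finset.dvd_sum fun x _ => h1 x
  rw [map_sub, (hD k K hK).2, map_zsmul, zero_sub, dvd_neg, smul_eq_mul,
    mul_dvd_mul_iff_left (by exact_mod_cast hl.out.ne_zero)] at h2
  exact (ZMod.intCast_zmod_eq_zero_iff_dvd _ l).2 h2

section PERF

variable {k K : Type} [Field k] [Field K] [Algebra k K] {l : ℕ}

theorem exists_rep' [NeZero l] (a : VV k K l) : ∃ f D, Rep f D a := by
  obtain ⟨f, hf, hv⟩ := mem_VV.1 a.2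
  have h1 : ∀ v, (l : ℤ) ∣ dv k (f : K) v := fun v => by
    by_cases H : (Function.support fun v : Place k K => v.ord (f : K)).Finite
    · rw [dv_apply H]; exact hv v
    · rw [dv, dif_neg H]; exact dvd_zero _
  refine ⟨f, (dv k (f : K)).mapRange (· / (l : ℤ)) (by simp), hf.symm, ?_⟩
  ext v
  rw [Finsupp.smul_apply, mapRange_apply, smul_eq_mul, Int.mul_ediv_cancel' (h1 v)]

end PERF

theorem perf : StmtPERF := by
  intro k K Ω _ _ _ _ _ _ _ _ _ _ l hl ζ e c _ hζ has hk hfin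
  have : NeZero l := ⟨hl.out.ne_zero⟩
  have : IsAlgClosure K Ω := ⟨inferInstance, inferInstance⟩
  have hroot : ∀ b : VV k K l, ∃ (f : Kˣ) (r : Ω), (b : Hl Kˣ l) = Hl.mk l f ∧ r ≠ 0 ∧
      r ^ l = algebraMap K Ω f ∧ ∀ τ : Ω ≃ₐ[K] Ω, τ r = algebraMap k Ω (ζ ^ (e (c τ) b).val) * r := by
    intro b
    obtain ⟨f, D, hf⟩ := exists_rep' b
    obtain ⟨r, hr⟩ := IsAlgClosed.exists_pow_nat_eq (algebraMap K Ω f) hl.out.pos
    refine ⟨f, r, hf.1, fun e0 => ?_, hr, fun τ => hk τ f D b r hf hr⟩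
    rw [e0, zero_pow (NeZero.ne l), eq_comm, map_eq_zero] at hr
    exact f.ne_zero hr
  have hinj : ∀ b, (∀ τ, e (c τ) b = 0) → b = 0 := by
    intro b hb
    obtain ⟨f, r, hf, hr0, hr, hτ⟩ := hroot b
    by_cases hp : ∃ y : K, y ^ l = f
    · obtain ⟨y, hy⟩ := hp
      have hy0 : y ≠ 0 := fun e0 => by
        rw [e0, zero_pow (NeZero.ne l)] at hy; exact f.ne_zero hy.symm
      exact Subtype.ext (hf.trans ((Hl.mk_eq_zero l f).2 ⟨Units.mk0 y hy0, Units.ext hy⟩))
    · have hirr := X_pow_sub_C_irreducible_of_prime hl.out (not_exists.1 hp)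
      have hmon := monic_X_pow_sub_C (f : K) hl.out.ne_zero
      have hζ1 : algebraMap k Ω ζ ^ l = 1 := by rw [← map_pow, hζ.pow_eq_one, map_one]
      have hcj : IsConjRoot K (algebraMap k Ω ζ * r) r :=
        (minpoly.eq_of_irreducible_of_monic hirr (by simp [mul_pow, hζ1, hr]) hmon).symm.trans
          (minpoly.eq_of_irreducible_of_monic hirr (by simp [hr]) hmon)
      obtain ⟨τ, h1⟩ := hcj.exists_algEquiv
      rw [hτ, hb, ZMod.val_zero, pow_zero] at h1
      exact absurd ((algebraMap k Ω).injective (mul_right_cancel₀ hr0 h1)).symm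
        (hζ.ne_one hl.out.one_lt)
  have hnd : ∀ a, (∀ b, e a b = 0) → a = 0 := fun a ha =>
    hinj a fun τ => by rw [has, ha, neg_zero]
  have := hfin.to_subtype
  have hF : Finite (VV k K l) := Finite.of_injective
    (fun b => fun a : Set.range c => e a b) fun b b' h => sub_eq_zero.1 <| hinj _ fun τ => by
      rw [map_sub, sub_eq_zero]; exact congrFun h ⟨c τ, τ, rfl⟩
  have hadd : ∀ τ τ', c (τ * τ') = c τ + c τ' := fun τ τ' => sub_eq_zero.1 <| hnd _ fun b => by
    obtain ⟨f, r, -, hr0, -, hτ⟩ := hroot b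
    have h1 := hτ (τ * τ')
    rw [AlgEquiv.mul_apply, hτ τ', map_mul, fix_const, hτ τ, ← mul_assoc, ← map_mul,
      ← pow_add] at h1
    have h2 := (algebraMap k Ω).injective (mul_right_cancel₀ hr0 h1)
    rw [(hζ.isOfFinOrder (NeZero.ne l)).pow_eq_pow_iff_modEq, ← hζ.eq_orderOf,
      ← ZMod.natCast_eq_natCast_iff] at h2
    rw [map_sub, map_add, LinearMap.sub_apply, LinearMap.add_apply, sub_eq_zero, add_comm]
    simpa using h2.symm
  have hz : c 1 = 0 := by simpa using hadd 1 1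
  have hn : ∀ (n : ℕ) τ, c (τ ^ n) = n • c τ := fun n τ => by
    induction n with
    | zero => simpa using hz
    | succ n ih => rw [pow_succ, hadd, ih, succ_nsmul]
  let C : Submodule (ZMod l) (VV k K l) :=
    { carrier := Set.range c
      zero_mem' := ⟨1, hz⟩
      add_mem' := by rintro _ _ ⟨τ, rfl⟩ ⟨τ', rfl⟩; exact ⟨_, hadd τ τ'⟩
      smul_mem' := by
        rintro m _ ⟨τ, rfl⟩
        exact ⟨τ ^ m.val, by rw [hn, ← Nat.cast_smul_eq_nsmul (ZMod l), ZMod.natCast_zmod_val]⟩ }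
  have hM : Module.Finite (ZMod l) (VV k K l) := Module.Finite.of_finite
  have hC : C = ⊤ := by
    apply Submodule.eq_top_of_finrank_eq
    refine le_antisymm C.finrank_le ?_
    rw [← Subspace.dual_finrank_eq (V := C)]
    refine LinearMap.finrank_le_finrank_of_injective (f := (e.comp C.subtype).flip) ?_
    rw [injective_iff_map_eq_zero]
    exact fun b hb => hinj b fun τ => LinearMap.congr_fun hb ⟨c τ, τ, rfl⟩
  exact ⟨fun a => (hC ▸ Submodule.mem_top : a ∈ C), hM, hnd⟩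

end Pool.Agent.MP_cce4c9_lc.H15
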